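import Pool.Agent.D0H24.Perc.Site
import Pool.Agent.D0H24.Perc.WallNum

set_option autoImplicit false

open MeasureTheory Set

/-!
Site percolation on `Z^d`, `d ≥ 3`, at and slightly above the critical point: the infinite cluster
has voids of radius `k` with probability at least `c k ^ (-A) exp (- C k ^ (d - 1) (p - p_c) ^ a)`.
-/

namespace Pool.Agent.D0H24.Perc.Extra.VoidsAbovePc

open Pool.Agent.D0H24.Site

noncomputable section

/-- No vertex of the box of radius `k` is in an infinite open cluster. -/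
def voidEvent (d k : ℕ) : Set (V d → Bool) :=
  {ω | ∀ x ∈ box d k, (cluster ω univ x).Finite}

/-- **Voids of the infinite cluster at and slightly above the critical point.**  For every `d ≥ 3`
there are `A`, `a > 0`, `c > 0`, `C > 0` and `δ > 0` such that for all `p` in `[p_c, p_c + δ]` and
all `k ≥ 1` the `P_p`-probability that no vertex of the box of radius `k` is in an infinite cluster
is at least `c k ^ (-A) exp (- C k ^ (d - 1) (p - p_c) ^ a)`. -/
theorem result (d : ℕ) (hd : 3 ≤ d) : ∃ (A : ℕ) (a c C δ : ℝ), 0 < a ∧ 0 < c ∧ 0 < C ∧ 0 < δ ∧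
    ∀ p : unitInterval, pc d ≤ p → (p : ℝ) - pc d ≤ δ → ∀ k : ℕ, 1 ≤ k →
      c / (k : ℝ) ^ A * Real.exp (-(C * (k : ℝ) ^ (d - 1) * ((p : ℝ) - pc d) ^ a)) ≤
        (P d p).real (voidEvent d k) := by
  have hN : Pool.Agent.Y990.CB.Nd (Pool.Agent.Y990.CB.siteM d) := Pool.Agent.Y990.CB.nd_site
  have hQ : Pool.Agent.Y990.CB.Qm (Pool.Agent.Y990.CB.siteM d) := Pool.Agent.Y448.CB2.qm_site d
  obtain ⟨A, a, c, C, δ, ha, hc, hC, hδ, h⟩ :=
    Pool.Agent.D0H24.Perc.void hd (Pool.Agent.Y990.CB.siteM d) hN hQ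
  refine ⟨A, a, c, C, δ, ha, hc, hC, hδ, fun p hp hpδ k hk => ?_⟩
  rw [pc_eq] at hp hpδ ⊢
  refine (h p hp hpδ k hk).trans ?_
  rw [P_eq]
  unfold Pool.Agent.D0H24.Perc.vd
  refine measureReal_mono ?_ (measure_ne_top _ _)
  intro ω hω x hx
  rw [box_eq] at hx
  exact (hω x hx).subset (cluster_sub ω univ x)

end

end Pool.Agent.D0H24.Perc.Extra.VoidsAbovePc
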